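import Pool.Agent.Helper76.DE.StT

/-!
# Project PRD (MP_77ff3d_nt): module Bi (binomial law under a shift)
-/

set_option autoImplicit false

namespace Pool.Agent.Helper16.PRD

open Pool.Agent.Helper76.ND Pool.Agent.Helper76.DE Finset

theorem Bi_up (n k : ℕ) (h : k + 1 ≤ n / 2) : n.choose k ≤ n.choose (k + 1) := by
  have h1 := Nat.choose_succ_right_eq n k
  have h2 : k + 1 ≤ n - k := by omega
  have h3 : n.choose k * (k + 1) ≤ n.choose (k + 1) * (k + 1) := by
    rw [h1]; exact Nat.mul_le_mul_left _ h2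
  exact Nat.le_of_mul_le_mul_right h3 (Nat.succ_pos k)

theorem Bi_down (n k : ℕ) (h : n / 2 ≤ k) : n.choose (k + 1) ≤ n.choose k := by
  have h1 := Nat.choose_succ_right_eq n k
  have h2 : n - k ≤ k + 1 := by omega
  have h3 : n.choose (k + 1) * (k + 1) ≤ n.choose k * (k + 1) := by
    rw [h1]; exact Nat.mul_le_mul_left _ h2
  exact Nat.le_of_mul_le_mul_right h3 (Nat.succ_pos k)

/-- The summand without the factor `2^(-n)`. -/
noncomputable def Bi_t (n j : ℕ) : ℝ := |((n.choose j : ℝ) - (if j = 0 then 0 else (n.choose (j - 1) : ℝ)))|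

theorem Bi_sum1 (n k : ℕ) (h : k ≤ n / 2) : ∑ j ∈ range (k + 1), Bi_t n j = n.choose k := by
  induction k with
  | zero => simp [Bi_t]
  | succ k ih =>
    rw [sum_range_succ, ih (by omega)]
    have h1 : (n.choose k : ℝ) ≤ n.choose (k + 1) := by exact_mod_cast Bi_up n k h
    have h2 : Bi_t n (k + 1) = (n.choose (k + 1) : ℝ) - n.choose k := by
      unfold Bi_t
      rw [if_neg (Nat.succ_ne_zero k), Nat.add_sub_cancel, abs_of_nonneg (by linarith)]
    rw [h2]; ring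

theorem Bi_sum2 (n k : ℕ) (h : n / 2 ≤ k) :
    ∑ j ∈ range (k + 1), Bi_t n j = 2 * n.choose (n / 2) - n.choose k := by
  induction k, h using Nat.le_induction with
  | base => rw [Bi_sum1 n _ le_rfl]; ring
  | succ k hk ih =>
    rw [sum_range_succ, ih]
    have h1 : (n.choose (k + 1) : ℝ) ≤ n.choose k := by exact_mod_cast Bi_down n k hk
    have h2 : Bi_t n (k + 1) = (n.choose k : ℝ) - n.choose (k + 1) := by
      unfold Bi_t
      rw [if_neg (Nat.succ_ne_zero k), Nat.add_sub_cancel, abs_of_nonpos (by linarith)]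
      ring
    rw [h2]; ring

theorem Bi_tau (n : ℕ) : tau n = 2 * n.choose (n / 2) / 2 ^ n := by
  have h1 : tau n = (∑ j ∈ range (n + 1 + 1), Bi_t n j) / 2 ^ n := by
    unfold tau Bi_t
    rw [sum_div]
  have h2 : n / 2 ≤ n + 1 := by omega
  rw [h1, Bi_sum2 n (n + 1) h2, Nat.choose_succ_self, Nat.cast_zero, sub_zero]

theorem Bi_central (m : ℕ) : m.centralBinom ^ 2 * (2 * m + 1) ≤ 16 ^ m := by
  induction m with
  | zero => simp
  | succ m ih =>
    have h1 := Nat.succ_mul_centralBinom_succ m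
    have h2 : (m + 1) ^ 2 * ((m + 1).centralBinom ^ 2 * (2 * (m + 1) + 1)) ≤ (m + 1) ^ 2 * 16 ^ (m + 1) := by
      calc (m + 1) ^ 2 * ((m + 1).centralBinom ^ 2 * (2 * (m + 1) + 1))
          = ((m + 1) * (m + 1).centralBinom) ^ 2 * (2 * m + 3) := by ring
        _ = (2 * (2 * m + 1) * m.centralBinom) ^ 2 * (2 * m + 3) := by rw [h1]
        _ = 4 * (2 * m + 1) * (2 * m + 3) * (m.centralBinom ^ 2 * (2 * m + 1)) := by ring
        _ ≤ 4 * (2 * m + 1) * (2 * m + 3) * 16 ^ m := Nat.mul_le_mul_left _ ih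
        _ ≤ (16 * (m + 1) ^ 2) * 16 ^ m := Nat.mul_le_mul_right _ (by nlinarith)
        _ = (m + 1) ^ 2 * 16 ^ (m + 1) := by ring
    exact Nat.le_of_mul_le_mul_left h2 (by positivity)

theorem Bi_bound (n : ℕ) : (n.choose (n / 2)) ^ 2 * n ≤ 4 ^ n := by
  rcases Nat.even_or_odd' n with ⟨m, rfl | rfl⟩
  · have h1 := Bi_central m
    have h2 : 2 * m / 2 = m := by omega
    rw [h2, ← Nat.centralBinom_eq_two_mul_choose, pow_mul]
    norm_num
    nlinarith
  · have h1 := Bi_central m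
    have h2 : (2 * m + 1) / 2 = m := by omega
    have h3 : (2 * m + 1).choose m ≤ 2 * m.centralBinom := by
      rcases m with _ | k
      · simp
      · have h4 := Nat.choose_le_centralBinom k (k + 1)
        rw [Nat.choose_succ_succ]
        have h5 := Nat.choose_le_centralBinom (k + 1) (k + 1)
        simp only [Nat.succ_eq_add_one] at *
        omega
    rw [h2]
    calc (2 * m + 1).choose m ^ 2 * (2 * m + 1) ≤ (2 * m.centralBinom) ^ 2 * (2 * m + 1) :=
          Nat.mul_le_mul_right _ (Nat.pow_le_pow_left h3 2)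
      _ = 4 * (m.centralBinom ^ 2 * (2 * m + 1)) := by ring
      _ ≤ 4 * 16 ^ m := Nat.mul_le_mul_left _ h1
      _ = 4 ^ (2 * m + 1) := by rw [pow_succ, pow_mul]; norm_num; ring

/-- MODULE Bi. -/
theorem hBi : StBi := by
  intro ε hε
  obtain ⟨n0, hn0⟩ := exists_nat_ge (4 / ε ^ 2)
  refine ⟨n0 + 1, fun n hn => ?_⟩
  have hn' : (4 : ℝ) / ε ^ 2 ≤ n := hn0.trans (by exact_mod_cast (by omega : n0 ≤ n))
  have hnpos : (0 : ℝ) < n := by exact_mod_cast (by omega : 0 < n)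
  have hε2 : 4 ≤ (n : ℝ) * ε ^ 2 := by
    rwa [div_le_iff₀ (by positivity)] at hn'
  rw [Bi_tau]
  have h1 : ((n.choose (n / 2) : ℝ)) ^ 2 * n ≤ 4 ^ n := by exact_mod_cast Bi_bound n
  have h4 : (4 : ℝ) ^ n = (2 ^ n) ^ 2 := by
    rw [← pow_mul, mul_comm, pow_mul]; norm_num
  rw [div_le_iff₀ (by positivity)]
  set c : ℝ := (n.choose (n / 2) : ℝ) with hc
  have hc0 : 0 ≤ c := Nat.cast_nonneg _
  rw [h4] at h1
  have h5 : (2 * c) ^ 2 ≤ (ε * 2 ^ n) ^ 2 := by
    have h6 : n * (2 * c) ^ 2 ≤ n * (ε * 2 ^ n) ^ 2 := by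
      have h7 : (n : ℝ) * (ε * 2 ^ n) ^ 2 = (n * ε ^ 2) * (2 ^ n) ^ 2 := by ring
      rw [h7]
      have h8 : 4 * (2 ^ n : ℝ) ^ 2 ≤ (n * ε ^ 2) * (2 ^ n) ^ 2 :=
        mul_le_mul_of_nonneg_right hε2 (by positivity)
      nlinarith
    exact le_of_mul_le_mul_left h6 hnpos
  exact (pow_le_pow_iff_left₀ (by positivity) (by positivity) (by norm_num)).1 h5

end Pool.Agent.Helper16.PRD
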